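import Mathlib

/-!
# Domino games: passing can help player `B`

For every `d ≥ 1` we give a set `E ⊆ ℤ^d` and an SFT for which `A` wins the domino game without
passing, but does not win the domino game with passing.  The set `E` is a line together with one
further cell, which does not interact with the line: in the game without passing `A` uses that
cell to leave `B` with the move on the empty line.
-/

namespace Pool.Agent.Results.MP_d015f1_co.PassingHelpsB

/-- The cells of the lattice `ℤ^d`. -/
abbrev Cell (d : ℕ) := Fin d → ℤ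

/-- A finite pattern `(S, f)`: a finite set `S` of cells and a map `f : S → 𝒜`. -/
structure Pattern (d : ℕ) (𝒜 : Type) where
  /-- the support -/
  S : Finset (Cell d)
  /-- the colours -/
  f : S → 𝒜

/-- The finite pattern `p = (S, f)` appears in the partial colouring `q` (`none` means
uncoloured): for some `i`, all cells `i + s`, `s ∈ S`, are coloured and `i + s` has the colour
`f s`. -/
def Appears {d : ℕ} {𝒜 : Type} (p : Pattern d 𝒜) (q : Cell d → Option 𝒜) : Prop :=
  ∃ i : Cell d, ∀ s : p.S, q (i + s) = some (p.f s)

/-- The positions of the domino game which are winning for `A`, in the inductive sense.  A position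
is a partial colouring together with the information whether it is the turn of `A` (`true`) or of
`B` (`false`); `pass` tells whether passing is allowed.  Positions in which a pattern of `F`
appears are won by `A`; a position with `A` to move is winning for `A` if some move leads to a
winning one; a position with `B` to move in which `E` is not completely coloured is winning
for `A` if all moves lead to winning ones. -/
inductive WinningForA {d : ℕ} {𝒜 : Type} (pass : Bool) (F : Set (Pattern d 𝒜))
    (E : Set (Cell d)) : Bool → (Cell d → Option 𝒜) → Prop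
  | final (t : Bool) (q : Cell d → Option 𝒜) (p : Pattern d 𝒜) (hp : p ∈ F)
      (h : Appears p q) : WinningForA pass F E t q
  | moveA (q : Cell d → Option 𝒜) (i : Cell d) (a : 𝒜) (hi : i ∈ E) (hq : q i = none)
      (h : WinningForA pass F E false (Function.update q i (some a))) :
      WinningForA pass F E true q
  | passA (q : Cell d → Option 𝒜) (hp : pass = true) (h : WinningForA pass F E false q) :
      WinningForA pass F E true q
  | moveB (q : Cell d → Option 𝒜) (hex : ∃ i ∈ E, q i = none)
      (h : ∀ i ∈ E, q i = none → ∀ a : 𝒜,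
        WinningForA pass F E true (Function.update q i (some a)))
      (hp : pass = true → WinningForA pass F E true q) : WinningForA pass F E false q

/-- The domino game `Γ(𝒜, F, E)` (with passing) is winning for `A`. -/
def GammaWinningForA {d : ℕ} {𝒜 : Type} (F : Set (Pattern d 𝒜)) (E : Set (Cell d)) : Prop :=
  WinningForA true F E true fun _ => none

/-- The domino game `Γ*(𝒜, F, E)` (without passing) is winning for `A`. -/
def GammaStarWinningForA {d : ℕ} {𝒜 : Type} (F : Set (Pattern d 𝒜)) (E : Set (Cell d)) : Prop :=
  WinningForA false F E true fun _ => none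

section
variable {n : ℕ}

/-- the point `(k, 0, …, 0)` -/
def pt (n : ℕ) (k : ℤ) : Cell (n + 1) := Pi.single 0 k

theorem pt_inj {k l : ℤ} (h : pt n k = pt n l) : k = l := by
  have := congrFun h 0
  simpa [pt] using this

theorem pt_add (k l : ℤ) : pt n k + pt n l = pt n (k + l) := by
  unfold pt; rw [Pi.single_add]

/-- three cells `(0, …)`, `(2, …)`, `(4, …)` of the same colour -/
def mono (n : ℕ) (a : Bool) : Pattern (n + 1) Bool where
  S := {pt n 0, pt n 2, pt n 4}
  f := fun _ => a

/-- the line of even points and one further point -/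
def EE (n : ℕ) : Set (Cell (n + 1)) := {x | ∃ k : ℤ, x = pt n (2 * k)} ∪ {pt n 1}

/-- the two patterns -/
def FF (n : ℕ) : Set (Pattern (n + 1) Bool) := {mono n false, mono n true}

theorem appears_mono {a : Bool} {q : Cell (n + 1) → Option Bool} {i : Cell (n + 1)}
    (h0 : q i = some a) (h2 : q (i + pt n 2) = some a) (h4 : q (i + pt n 4) = some a) :
    Appears (mono n a) q := by
  refine ⟨i, fun s => ?_⟩
  have hs := s.2
  simp only [mono, Finset.mem_insert, Finset.mem_singleton] at hs
  rcases hs with hs | hs | hs
  · rw [hs]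
    have : i + pt n 0 = i := by unfold pt; simp
    rw [this]; exact h0
  · rw [hs]; exact h2
  · rw [hs]; exact h4

theorem appears_mono_elim {a : Bool} {q : Cell (n + 1) → Option Bool}
    (h : Appears (mono n a) q) :
    ∃ i, q i = some a ∧ q (i + pt n 2) = some a ∧ q (i + pt n 4) = some a := by
  obtain ⟨i, hi⟩ := h
  refine ⟨i, ?_, hi ⟨pt n 2, by simp [mono]⟩, hi ⟨pt n 4, by simp [mono]⟩⟩
  have := hi ⟨pt n 0, by simp [mono]⟩
  have h0 : i + pt n 0 = i := by unfold pt; simp
  simp only [h0] at this
  exact this

theorem mem_FF (a : Bool) : mono n a ∈ FF n := by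
  cases a <;> simp [FF]

theorem even_mem (k : ℤ) : pt n (2 * k) ∈ EE n := Or.inl ⟨k, rfl⟩

theorem one_mem : pt n 1 ∈ EE n := Or.inr rfl

/-- `A` wins without passing -/
theorem star (n : ℕ) : GammaStarWinningForA (FF n) (EE n) := by
  unfold GammaStarWinningForA
  refine WinningForA.moveA _ (pt n 1) true one_mem rfl ?_
  refine WinningForA.moveB _ ⟨pt n (2 * 0), even_mem 0, ?_⟩ ?_ (by simp)
  · rw [Function.update_of_ne]
    intro h
    have := pt_inj h
    omega
  intro i hi hq a
  have hi1 : i ≠ pt n 1 := by
    rintro rfl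
    simp at hq
  obtain ⟨k, rfl⟩ : ∃ k : ℤ, i = pt n (2 * k) := by
    rcases hi with hi | hi
    · exact hi
    · exact absurd hi hi1
  have ne1 : ∀ l : ℤ, pt n (2 * l) ≠ pt n 1 := by
    intro l h
    have := pt_inj h
    omega
  have ne2 : ∀ l m : ℤ, l ≠ m → pt n (2 * l) ≠ pt n (2 * m) := by
    intro l m hlm h
    have := pt_inj h
    omega
  -- `A` plays next to the stone of `B`
  refine WinningForA.moveA _ (pt n (2 * (k + 1))) a (even_mem _) ?_ ?_
  · rw [Function.update_of_ne (ne2 _ _ (by omega)), Function.update_of_ne (ne1 _)]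
  refine WinningForA.moveB _ ⟨pt n (2 * (k + 2)), even_mem _, ?_⟩ ?_ (by simp)
  · rw [Function.update_of_ne (ne2 _ _ (by omega)), Function.update_of_ne (ne2 _ _ (by omega)),
      Function.update_of_ne (ne1 _)]
  intro j hj hqj b
  have hjk : j ≠ pt n (2 * k) := by
    rintro rfl
    rw [Function.update_of_ne (ne2 _ _ (by omega)), Function.update_self] at hqj
    simp at hqj
  have hjk1 : j ≠ pt n (2 * (k + 1)) := by
    rintro rfl
    rw [Function.update_self] at hqj
    simp at hqj
  by_cases hj2 : j = pt n (2 * (k + 2))
  · -- `A` completes on the left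
    refine WinningForA.moveA _ (pt n (2 * (k - 1))) a (even_mem _) ?_ ?_
    · rw [hj2, Function.update_of_ne (ne2 _ _ (by omega)),
        Function.update_of_ne (ne2 _ _ (by omega)), Function.update_of_ne (ne2 _ _ (by omega)),
        Function.update_of_ne (ne1 _)]
    · refine WinningForA.final _ _ (mono n a) (mem_FF a)
        (appears_mono (i := pt n (2 * (k - 1))) ?_ ?_ ?_)
      · rw [Function.update_self]
      · rw [pt_add, show 2 * (k - 1) + 2 = 2 * k by ring,
          Function.update_of_ne (ne2 _ _ (by omega)), Function.update_of_ne hjk.symm,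
          Function.update_of_ne (ne2 _ _ (by omega)), Function.update_self]
      · rw [pt_add, show 2 * (k - 1) + 4 = 2 * (k + 1) by ring,
          Function.update_of_ne (ne2 _ _ (by omega)), Function.update_of_ne hjk1.symm,
          Function.update_self]
  · refine WinningForA.moveA _ (pt n (2 * (k + 2))) a (even_mem _) ?_ ?_
    · rw [Function.update_of_ne (Ne.symm hj2), Function.update_of_ne (ne2 _ _ (by omega)),
        Function.update_of_ne (ne2 _ _ (by omega)), Function.update_of_ne (ne1 _)]
    · refine WinningForA.final _ _ (mono n a) (mem_FF a)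
        (appears_mono (i := pt n (2 * k)) ?_ ?_ ?_)
      · rw [Function.update_of_ne (ne2 _ _ (by omega)), Function.update_of_ne hjk.symm,
          Function.update_of_ne (ne2 _ _ (by omega)), Function.update_self]
      · rw [pt_add, show 2 * k + 2 = 2 * (k + 1) by ring,
          Function.update_of_ne (ne2 _ _ (by omega)), Function.update_of_ne hjk1.symm,
          Function.update_self]
      · rw [pt_add, show 2 * k + 4 = 2 * (k + 2) by ring, Function.update_self]

/-- The positions which `B` leaves to `A` in the game with passing: only cells of `E` are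
coloured, and of the cells `4 k`, `4 k + 2` of the line either both are uncoloured or they have
different colours. -/
def Inv (q : Cell (n + 1) → Option Bool) : Prop :=
  (∀ i, q i ≠ none → i ∈ EE n) ∧
    ∀ k : ℤ, (q (pt n (4 * k)) = none ∧ q (pt n (4 * k + 2)) = none) ∨
      ∃ a : Bool, q (pt n (4 * k)) = some a ∧ q (pt n (4 * k + 2)) = some (!a)

theorem window {q : Cell (n + 1) → Option Bool} (hE : ∀ i, q i ≠ none → i ∈ EE n) {a : Bool}
    {i : Cell (n + 1)} (h0 : q i = some a) (h2 : q (i + pt n 2) = some a)
    (h4 : q (i + pt n 4) = some a) :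
    ∃ k : ℤ, q (pt n (4 * k)) = some a ∧ q (pt n (4 * k + 2)) = some a := by
  have m0 : i ∈ EE n := hE i (by rw [h0]; simp)
  have m2 : i + pt n 2 ∈ EE n := hE _ (by rw [h2]; simp)
  rcases m0 with ⟨l, rfl⟩ | h1
  · rcases Int.even_or_odd' l with ⟨m, rfl | rfl⟩
    · refine ⟨m, ?_, ?_⟩
      · rw [← h0]; congr 2; ring
      · rw [← h2, pt_add]; congr 2; ring
    · refine ⟨m + 1, ?_, ?_⟩
      · rw [← h2, pt_add]; congr 2; ring
      · rw [← h4, pt_add]; congr 2; ring
  · exfalso
    rw [Set.mem_singleton_iff] at h1
    rw [h1, pt_add] at m2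
    rcases m2 with ⟨l, hl⟩ | h2
    · have := pt_inj hl
      omega
    · have := pt_inj (Set.mem_singleton_iff.1 h2)
      omega

theorem not_final {q : Cell (n + 1) → Option Bool} (hq : Inv q) {p : Pattern (n + 1) Bool}
    (hp : p ∈ FF n) : ¬ Appears p q := by
  intro h
  obtain ⟨a, rfl⟩ : ∃ a, p = mono n a := by
    rcases hp with hp | hp
    · exact ⟨_, hp⟩
    · exact ⟨_, hp⟩
  obtain ⟨i, h0, h2, h4⟩ := appears_mono_elim h
  obtain ⟨k, hk, hk2⟩ := window hq.1 h0 h2 h4
  rcases hq.2 k with ⟨e, _⟩ | ⟨b, e, e'⟩
  · rw [hk] at e; simp at e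
  · rw [hk] at e; rw [hk2] at e'
    simp at e e'
    subst e
    simp at e'

theorem not_final' {q : Cell (n + 1) → Option Bool} (hq : Inv q) {i : Cell (n + 1)}
    (hi : i ∈ EE n) (hn : q i = none) (a : Bool) {p : Pattern (n + 1) Bool}
    (hp : p ∈ FF n) : ¬ Appears p (Function.update q i (some a)) := by
  intro h
  obtain ⟨b, rfl⟩ : ∃ a, p = mono n a := by
    rcases hp with hp | hp
    · exact ⟨_, hp⟩
    · exact ⟨_, hp⟩
  obtain ⟨j, h0, h2, h4⟩ := appears_mono_elim h
  have hE : ∀ x, Function.update q i (some a) x ≠ none → x ∈ EE n := by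
    intro x hx
    by_cases hxi : x = i
    · rw [hxi]; exact hi
    · rw [Function.update_of_ne hxi] at hx; exact hq.1 x hx
  obtain ⟨k, hk, hk2⟩ := window hE h0 h2 h4
  have hne : pt n (4 * k) ≠ pt n (4 * k + 2) := fun h => by have := pt_inj h; omega
  by_cases c1 : pt n (4 * k) = i
  · rw [Function.update_of_ne (fun h => hne (c1.trans h.symm))] at hk2
    rw [← c1] at hn
    rcases hq.2 k with ⟨_, e⟩ | ⟨b, e, _⟩
    · rw [hk2] at e; simp at e
    · rw [hn] at e; simp at e
  · rw [Function.update_of_ne c1] at hk
    by_cases c2 : pt n (4 * k + 2) = i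
    · rw [← c2] at hn
      rcases hq.2 k with ⟨e, _⟩ | ⟨b, _, e⟩
      · rw [hk] at e; simp at e
      · rw [hn] at e; simp at e
    · rw [Function.update_of_ne c2] at hk2
      rcases hq.2 k with ⟨e, _⟩ | ⟨b, e, e'⟩
      · rw [hk] at e; simp at e
      · rw [hk] at e; rw [hk2] at e'
        simp at e e'
        subst e
        simp at e'

/-- the answer of `B` -/
theorem answer {q : Cell (n + 1) → Option Bool} (hq : Inv q) {i : Cell (n + 1)}
    (hi : i ∈ EE n) (hn : q i = none) (a : Bool) :
    Inv (Function.update q i (some a)) ∨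
      ∃ j ∈ EE n, Function.update q i (some a) j = none ∧
        Inv (Function.update (Function.update q i (some a)) j (some (!a))) := by
  have hE : ∀ x, Function.update q i (some a) x ≠ none → x ∈ EE n := by
    intro x hx
    by_cases hxi : x = i
    · rw [hxi]; exact hi
    · rw [Function.update_of_ne hxi] at hx; exact hq.1 x hx
  have hE2 : ∀ j ∈ EE n, ∀ x,
      Function.update (Function.update q i (some a)) j (some (!a)) x ≠ none → x ∈ EE n := by
    intro j hj x hx
    by_cases hxj : x = j
    · rw [hxj]; exact hj
    · rw [Function.update_of_ne hxj] at hx; exact hE x hx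
  have ne4 : ∀ l m : ℤ, l ≠ m → pt n l ≠ pt n m := fun l m hlm h => hlm (pt_inj h)
  rcases hi with ⟨l, rfl⟩ | h1
  · right
    rcases Int.even_or_odd' l with ⟨m, rfl | rfl⟩
    · -- the cell `4 m`
      have e4 : (2 * (2 * m) : ℤ) = 4 * m := by ring
      rw [e4] at hn hE hE2 ⊢
      have hj : pt n (4 * m + 2) ∈ EE n := Or.inl ⟨2 * m + 1, by congr 1; ring⟩
      refine ⟨pt n (4 * m + 2), hj, ?_, hE2 _ hj, ?_⟩
      · rw [Function.update_of_ne (ne4 _ _ (by omega))]
        rcases hq.2 m with ⟨_, e⟩ | ⟨b, e, _⟩
        · exact e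
        · rw [hn] at e; simp at e
      · intro k
        by_cases hkm : k = m
        · subst hkm
          right
          refine ⟨a, ?_, ?_⟩
          · rw [Function.update_of_ne (ne4 _ _ (by omega)), Function.update_self]
          · rw [Function.update_self]
        · rw [Function.update_of_ne (ne4 _ _ (by omega)), Function.update_of_ne (ne4 _ _ (by omega)),
            Function.update_of_ne (ne4 _ _ (by omega)), Function.update_of_ne (ne4 _ _ (by omega))]
          exact hq.2 k
    · -- the cell `4 m + 2`
      have e4 : (2 * (2 * m + 1) : ℤ) = 4 * m + 2 := by ring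
      rw [e4] at hn hE hE2 ⊢
      have hj : pt n (4 * m) ∈ EE n := Or.inl ⟨2 * m, by congr 1; ring⟩
      refine ⟨pt n (4 * m), hj, ?_, hE2 _ hj, ?_⟩
      · rw [Function.update_of_ne (ne4 _ _ (by omega))]
        rcases hq.2 m with ⟨e, _⟩ | ⟨b, _, e⟩
        · exact e
        · rw [hn] at e; simp at e
      · intro k
        by_cases hkm : k = m
        · subst hkm
          right
          refine ⟨!a, ?_, ?_⟩
          · rw [Function.update_self]
          · rw [Function.update_of_ne (ne4 _ _ (by omega)), Function.update_self]; simp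
        · rw [Function.update_of_ne (ne4 _ _ (by omega)), Function.update_of_ne (ne4 _ _ (by omega)),
            Function.update_of_ne (ne4 _ _ (by omega)), Function.update_of_ne (ne4 _ _ (by omega))]
          exact hq.2 k
  · left
    rw [Set.mem_singleton_iff] at h1
    refine ⟨hE, fun k => ?_⟩
    rw [h1, Function.update_of_ne (ne4 _ _ (by omega)), Function.update_of_ne (ne4 _ _ (by omega))]
    exact hq.2 k

/-- the positions from which `B` wins in the game with passing -/
def Good (t : Bool) (q : Cell (n + 1) → Option Bool) : Prop :=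
  Inv q ∨ (t = false ∧ ∃ q0 : Cell (n + 1) → Option Bool, Inv q0 ∧ ∃ i ∈ EE n, q0 i = none ∧
    ∃ a : Bool, q = Function.update q0 i (some a))

theorem not_winning (t : Bool) (q : Cell (n + 1) → Option Bool)
    (h : WinningForA true (FF n) (EE n) t q) : ¬ Good t q := by
  induction h with
  | final t q p hp h =>
    rintro (hq | ⟨_, q0, hq0, i, hi, hn, a, rfl⟩)
    · exact not_final hq hp h
    · exact not_final' hq0 hi hn a hp h
  | moveA q i a hi hq h ih =>
    rintro (hg | ⟨ht, _⟩)
    · exact ih (Or.inr ⟨rfl, q, hg, i, hi, hq, a, rfl⟩)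
    · simp at ht
  | passA q hp h ih =>
    rintro (hg | ⟨ht, _⟩)
    · exact ih (Or.inl hg)
    · simp at ht
  | moveB q hex h hp ih ihp =>
    rintro (hg | ⟨_, q0, hq0, i, hi, hn, a, rfl⟩)
    · exact ihp rfl (Or.inl hg)
    · rcases answer hq0 hi hn a with hg | ⟨j, hj, hjn, hg⟩
      · exact ihp rfl (Or.inl hg)
      · exact ih j hj hjn (!a) (Or.inl hg)

end

/-- For every `d ≥ 1` there are a set `E ⊆ ℤ^d`, a finite alphabet and a finite set of finite
patterns such that `A` wins the domino game without passing, whereas the domino game with passing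
is not winning for `A`, that is, it is winning for `B`. -/
theorem result (d : ℕ) (hd : 1 ≤ d) :
    ∃ (E : Set (Cell d)) (𝒜 : Type) (_ : Finite 𝒜) (F : Set (Pattern d 𝒜)), F.Finite ∧
      GammaStarWinningForA F E ∧ ¬ GammaWinningForA F E := by
  obtain ⟨n, rfl⟩ : ∃ n, d = n + 1 := ⟨d - 1, by omega⟩
  refine ⟨EE n, Bool, inferInstance, FF n, ?_, star n, ?_⟩
  · unfold FF
    exact (Set.finite_singleton _).insert _
  · intro h
    exact not_winning _ _ h (Or.inl ⟨by simp, fun k => Or.inl ⟨rfl, rfl⟩⟩)

end Pool.Agent.Results.MP_d015f1_co.PassingHelpsB
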